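import Pool.Agent.H46.YBE.Defs

set_option autoImplicit false

namespace Pool.Agent.H46.YBE

open Equiv

/-- Rump's criterion -/
lemma isSolution_of_cycle {X : Type} (σ : X → Perm X)
    (h : ∀ x y, σ x * σ ((σ x)⁻¹ y) = σ y * σ ((σ y)⁻¹ x)) : IsSolution σ := by
  rintro ⟨x, y, z⟩
  have h1 : ∀ x y, σ x * σ y = σ (σ x y) * σ ((σ (σ x y))⁻¹ x) := by
    intro x y
    have := h x (σ x y)
    simpa using this
  have e1 : ∀ x y z, σ x (σ y z) = σ (σ x y) (σ ((σ (σ x y))⁻¹ x) z) := by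
    intro x y z
    have := congrArg (fun f : Perm X => f z) (h1 x y)
    simpa using this
  simp only [r12, r23, rmap, Prod.mk.injEq]
  have hw := e1 x y z
  refine ⟨hw.symm, ?_, ?_⟩
  · -- second component
    rw [← hw]
    set w := σ x (σ y z) with hwdef
    have e2 := h w x
    have e3 : (σ x)⁻¹ w = σ y z := by rw [hwdef]; simp
    rw [e3] at e2
    have e4 : σ ((σ w)⁻¹ x) = (σ w)⁻¹ * σ x * σ (σ y z) := by
      rw [mul_assoc, ← e2]; simp
    rw [e4]
    simp
  · set w := σ x (σ y z) with hwdef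
    set a := σ x y with ha
    set b := (σ a)⁻¹ x with hb
    have e2 := h w x
    have e3 : (σ x)⁻¹ w = σ y z := by rw [hwdef]; simp
    rw [e3] at e2
    have e4 : σ ((σ w)⁻¹ x) = (σ w)⁻¹ * σ x * σ (σ y z) := by
      rw [mul_assoc, ← e2]; simp
    have e5 : σ ((σ w)⁻¹ x) ((σ (σ y z))⁻¹ y) = (σ w)⁻¹ a := by
      rw [e4]; simp [ha]
    rw [e5]
    have e6 : (σ a)⁻¹ w = σ b z := by rw [hw]; simp
    have e7 := h a w
    rw [e6] at e7
    -- σ a * σ (σ b z) = σ w * σ ((σ w)⁻¹ a)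
    have e8 := congrArg (fun f : Perm X => f⁻¹ x) e7
    simpa [mul_inv_rev, hb] using e8

lemma isSolution_transport_aux {X : Type} (σ : X → Perm X) (θ : Perm X)
    (h : ∀ x y, σ x * σ ((σ x)⁻¹ y) = σ y * σ ((σ y)⁻¹ x)) (x y : X) :
    transport θ σ x * transport θ σ ((transport θ σ x)⁻¹ y) =
      transport θ σ y * transport θ σ ((transport θ σ y)⁻¹ x) := by
  have := h (θ⁻¹ x) (θ⁻¹ y)
  simp only [transport, mul_inv_rev, inv_inv, Perm.mul_apply]
  have hθ : ∀ v, θ⁻¹ (θ v) = v := fun v => by simp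
  simp only [hθ, mul_assoc, inv_mul_cancel_left]
  simp only [← mul_assoc (σ _) (σ _)]
  rw [this]

variable {p : ℕ}

/-- the function `J` -/
def J (a : ZMod p) : ZMod p := if a = 0 then 1 else 0

lemma J_neg (a : ZMod p) : J (-a) = J a := by simp [J]

/-- the Cedó–Okniński type solution -/
def co (x : ZMod p × ZMod p) : Perm (ZMod p × ZMod p) where
  toFun u := (u.1 + x.2, u.2 - J (u.1 + x.2 - x.1))
  invFun u := (u.1 - x.2, u.2 + J (u.1 - x.1))
  left_inv u := by simp
  right_inv u := by simp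

lemma co_apply (x u : ZMod p × ZMod p) : co x u = (u.1 + x.2, u.2 - J (u.1 + x.2 - x.1)) := rfl

lemma co_inv_apply (x u : ZMod p × ZMod p) : (co x)⁻¹ u = (u.1 - x.2, u.2 + J (u.1 - x.1)) := rfl

lemma co_cycle (x y : ZMod p × ZMod p) : co x * co ((co x)⁻¹ y) = co y * co ((co y)⁻¹ x) := by
  ext u
  · simp only [Perm.mul_apply, co_apply, co_inv_apply]
    rw [show y.1 - x.1 = -(x.1 - y.1) by ring, J_neg]
    ring
  · simp only [Perm.mul_apply, co_apply, co_inv_apply]
    rw [show y.1 - x.1 = -(x.1 - y.1) by ring, J_neg]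
    have e1 : u.1 + (y.2 + J (x.1 - y.1)) - (y.1 - x.2) = u.1 + (x.2 + J (x.1 - y.1)) + y.2 - y.1 := by ring
    have e2 : u.1 + (x.2 + J (x.1 - y.1)) - (x.1 - y.2) = u.1 + (y.2 + J (x.1 - y.1)) + x.2 - x.1 := by ring
    rw [e1, e2]
    ring


lemma fibresAreBlocks {Y Z : Type} (σ : Y × Z → Perm (Y × Z)) (β : Y → Z → Perm Y)
    (α : Y → Z → Y → Perm Z) (h : IsBlockData σ β α) : FibresAreBlocks σ := by
  intro g hg
  induction hg using Subgroup.closure_induction with
  | mem g hg =>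
    obtain ⟨⟨y, z⟩, rfl⟩ := hg
    intro y'
    refine ⟨β y z y', ?_⟩
    ext ⟨a, b⟩
    simp only [Set.mem_image, fibre, Set.mem_ofPred_eq]
    constructor
    · rintro ⟨⟨c, d⟩, hc, he⟩
      simp only at hc
      subst hc
      rw [h] at he
      exact (congrArg Prod.fst he).symm
    · rintro rfl
      refine ⟨(y', (α y z y')⁻¹ b), rfl, ?_⟩
      rw [h]
      simp
  | one => intro y; exact ⟨y, by simp⟩
  | mul g g' _ _ ih ih' =>
    intro y
    obtain ⟨y1, h1⟩ := ih' y
    obtain ⟨y2, h2⟩ := ih y1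
    refine ⟨y2, ?_⟩
    rw [Perm.coe_mul, Set.image_comp, h1, h2]
  | inv g _ ih =>
    intro y
    -- choose the fibre containing the preimage
    by_cases hZ : Nonempty Z
    · obtain ⟨z⟩ := hZ
      obtain ⟨y1, h1⟩ := ih (g⁻¹ (y, z)).1
      have h2 : (y, z) ∈ g '' (fibre Z (g⁻¹ (y, z)).1) := ⟨g⁻¹ (y, z), rfl, by simp⟩
      rw [h1] at h2
      have h3 : y = y1 := h2
      refine ⟨(g⁻¹ (y, z)).1, ?_⟩
      rw [h3, ← h1, ← h3]
      ext v
      simp
    · refine ⟨y, ?_⟩
      have h0 : ∀ s : Set (Y × Z), s = ∅ := fun s => by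
        ext v
        exact absurd ⟨v.2⟩ hZ
      rw [h0 (_ '' _), h0 (fibre Z y)]

lemma conj_mem {X : Type} (θ : Perm X) (σ : X → Perm X) {g : Perm X} (hg : g ∈ permGroup σ) :
    θ * g * θ⁻¹ ∈ permGroup (transport θ σ) := by
  induction hg using Subgroup.closure_induction with
  | mem g hg =>
    obtain ⟨x, rfl⟩ := hg
    refine Subgroup.subset_closure ⟨θ x, ?_⟩
    simp [transport]
  | one => simp
  | mul g g' _ _ ih ih' =>
    have := Subgroup.mul_mem _ ih ih'
    have e : θ * g * θ⁻¹ * (θ * g' * θ⁻¹) = θ * (g * g') * θ⁻¹ := by group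
    rwa [e] at this
  | inv g _ ih =>
    have := Subgroup.inv_mem _ ih
    have e : (θ * g * θ⁻¹)⁻¹ = θ * g⁻¹ * θ⁻¹ := by group
    rwa [e] at this

lemma indecomposable_transport {X : Type} (θ : Perm X) (σ : X → Perm X) (h : Indecomposable σ) :
    Indecomposable (transport θ σ) := by
  intro x x'
  obtain ⟨g, hg, hgx⟩ := h (θ⁻¹ x) (θ⁻¹ x')
  refine ⟨θ * g * θ⁻¹, conj_mem θ σ hg, ?_⟩
  rw [Perm.mul_apply, Perm.mul_apply, hgx]
  exact θ.apply_symm_apply x'

lemma irretractable_transport {X : Type} (θ : Perm X) (σ : X → Perm X) (h : Irretractable σ) :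
    Irretractable (transport θ σ) := by
  intro x x' hx
  simp only [transport] at hx
  have h1 : σ (θ⁻¹ x) = σ (θ⁻¹ x') := mul_left_cancel (mul_right_cancel hx)
  exact (θ⁻¹).injective (h h1)

lemma co_indecomposable [Fact p.Prime] : Indecomposable (co (p := p)) := by
  rintro ⟨k, l⟩ ⟨k', l'⟩
  have hs : ∀ (n : ℕ) (k l : ZMod p), ((co (k, 0)) ^ n) (k, l) = (k, l - n) := by
    intro n k
    induction n with
    | zero => intro l; simp
    | succ n ih =>
      intro l
      rw [pow_succ', Perm.mul_apply, ih, co_apply]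
      simp [J]
      ring
  refine ⟨(co (k', 0)) ^ ((co (k, k' - k) (k, l)).2 - l').val * co (k, k' - k), ?_, ?_⟩
  · exact Subgroup.mul_mem _ (Subgroup.pow_mem _ (Subgroup.subset_closure (Set.mem_range_self _)) _)
      (Subgroup.subset_closure (Set.mem_range_self _))
  · rw [Perm.mul_apply]
    have e1 : co (k, k' - k) (k, l) = (k', (co (k, k' - k) (k, l)).2) := by
      ext <;> simp [co_apply]
    rw [e1, hs]
    simp

lemma co_irretractable [Fact p.Prime] : Irretractable (co (p := p)) := by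
  intro x y h
  have h1 : ∀ u, co x u = co y u := fun u => by rw [h]
  have h2 := congrArg Prod.fst (h1 (0, 0))
  have h3 := congrArg Prod.snd (h1 (x.1 - x.2, 0))
  simp only [co_apply] at h2 h3
  have h4 : x.2 = y.2 := by simpa using h2
  ext
  · by_contra hne
    have h5 : x.1 - y.1 ≠ 0 := sub_ne_zero.2 hne
    simp only [J, sub_add_cancel, sub_self, if_true, h4] at h3
    rw [if_neg h5] at h3
    simp at h3
  · exact h4

/-- block data of the relabelled solution -/
lemma co_block (π : Perm (ZMod p)) (τ : ZMod p → Perm (ZMod p)) :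
    IsBlockData (transport (label π τ) co)
      (fun y z => π * Equiv.addRight ((τ (π⁻¹ y))⁻¹ z) * π⁻¹)
      (fun y z y' => τ (π⁻¹ y' + (τ (π⁻¹ y))⁻¹ z) *
        Equiv.subRight (J (π⁻¹ y' + (τ (π⁻¹ y))⁻¹ z - π⁻¹ y)) * (τ (π⁻¹ y'))⁻¹) := by
  intro y z y' z'
  have e : ∀ v : ZMod p × ZMod p, (label π τ)⁻¹ v = (π⁻¹ v.1, (τ (π⁻¹ v.1))⁻¹ v.2) := fun v => rfl
  have e' : ∀ v : ZMod p × ZMod p, label π τ v = (π v.1, τ v.1 v.2) := fun v => rfl
  simp only [transport, Perm.mul_apply, e, e', co_apply]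
  simp

theorem co_not_Q2 [Fact p.Prime] (hp : p ≠ 2) (π : Perm (ZMod p)) (τ : ZMod p → Perm (ZMod p))
    (β : ZMod p → ZMod p → Perm (ZMod p)) (α : ZMod p → ZMod p → ZMod p → Perm (ZMod p))
    (hβα : IsBlockData (transport (label π τ) co) β α) :
    ∃ y y' y'' z z', ¬ (α y z y' = α y z' y'' ↔ β y z y' = β y z' y'') := by
  by_contra hcon
  push Not at hcon
  -- identify β and α
  have hβ : ∀ y z y', β (π y) (τ y z) (π y') = π (y' + z) := by
    intro y z y'
    have h1 := hβα (π y) (τ y z) (π y') 0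
    have h2 := co_block π τ (π y) (τ y z) (π y') 0
    rw [h2] at h1
    have := congrArg Prod.fst h1
    simpa using this.symm
  have hα : ∀ y z y', α (π y) (τ y z) (π y') = τ (y' + z) * Equiv.subRight (J (y' + z - y)) * (τ y')⁻¹ := by
    intro y z y'
    ext z'
    have h1 := hβα (π y) (τ y z) (π y') z'
    have h2 := co_block π τ (π y) (τ y z) (π y') z'
    rw [h2] at h1
    have := congrArg Prod.snd h1
    simpa using this.symm
  have key : ∀ y y' y'' z z', (τ (y' + z) * Equiv.subRight (J (y' + z - y)) * (τ y')⁻¹ =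
      τ (y'' + z') * Equiv.subRight (J (y'' + z' - y)) * (τ y'')⁻¹) ↔ y' + z = y'' + z' := by
    intro y y' y'' z z'
    have := hcon (π y) (π y') (π y'') (τ y z) (τ y z')
    rw [hα, hα, hβ, hβ] at this
    rw [this]
    exact π.injective.eq_iff
  have hτ : ∀ y' y'', τ y' = τ y'' := by
    intro y' y''
    have := (key 0 y' y'' (-y') (-y'')).2 (by ring)
    simp only [add_neg_cancel] at this
    have := mul_left_cancel this
    exact inv_injective this
  have h3 := (key 0 0 0 1 (-1)).1 (by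
    have hJ1 : J (1 : ZMod p) = 0 := by simp [J]
    have hJ2 : J (-1 : ZMod p) = 0 := by rw [J_neg]; exact hJ1
    simp only [zero_add, sub_zero, hJ1, hJ2]
    rw [hτ 1 (-1)])
  simp only [zero_add] at h3
  have h4 : (2 : ZMod p) = 0 := by
    have : (1 : ZMod p) - (-1) = 0 := sub_eq_zero.2 h3
    rw [← this]; ring
  have h5 : ((2 : ℕ) : ZMod p) = 0 := by exact_mod_cast h4
  rw [ZMod.natCast_eq_zero_iff] at h5
  have h6 := (Nat.prime_dvd_prime_iff_eq (Fact.out : p.Prime) Nat.prime_two).1 h5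
  exact hp h6

end Pool.Agent.H46.YBE
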