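import Mathlib

set_option autoImplicit false

/-!
# Set-theoretic solutions of the Yang-Baxter equation: definitions
-/

namespace Pool.Agent.H46.YBE

/-- The map `r(x,y) = (σ_x(y), σ_{σ_x(y)}⁻¹(x))` attached to a family of permutations. -/
def rmap {X : Type} (σ : X → Equiv.Perm X) (p : X × X) : X × X :=
  (σ p.1 p.2, (σ (σ p.1 p.2))⁻¹ p.1)

/-- `r₁₂ = r × id` on triples. -/
def r12 {X : Type} (r : X × X → X × X) (t : X × X × X) : X × X × X :=
  ((r (t.1, t.2.1)).1, (r (t.1, t.2.1)).2, t.2.2)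

/-- `r₂₃ = id × r` on triples. -/
def r23 {X : Type} (r : X × X → X × X) (t : X × X × X) : X × X × X :=
  (t.1, r t.2)

/-- `σ` defines a (involutive non-degenerate) solution: `r = rmap σ` satisfies the braid
relation `r₁₂ r₂₃ r₁₂ = r₂₃ r₁₂ r₂₃`. -/
def IsSolution {X : Type} (σ : X → Equiv.Perm X) : Prop :=
  ∀ t, r12 (rmap σ) (r23 (rmap σ) (r12 (rmap σ) t)) = r23 (rmap σ) (r12 (rmap σ) (r23 (rmap σ) t))

/-- The permutation group `𝒢(X, r)` generated by all `σ_x`. -/
def permGroup {X : Type} (σ : X → Equiv.Perm X) : Subgroup (Equiv.Perm X) :=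
  Subgroup.closure (Set.range σ)

/-- Indecomposable: the permutation group is transitive. -/
def Indecomposable {X : Type} (σ : X → Equiv.Perm X) : Prop :=
  ∀ x x' : X, ∃ g ∈ permGroup σ, g x = x'

/-- Irretractable: `σ_x ≠ σ_{x'}` for `x ≠ x'`. -/
def Irretractable {X : Type} (σ : X → Equiv.Perm X) : Prop := Function.Injective σ

/-- The fibre `{(y, z) : z ∈ Z}`. -/
def fibre {Y : Type} (Z : Type) (y : Y) : Set (Y × Z) := {x | x.1 = y}

/-- The fibres form a system of blocks: every element of the permutation group maps every fibre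
onto some fibre. -/
def FibresAreBlocks {Y Z : Type} (σ : Y × Z → Equiv.Perm (Y × Z)) : Prop :=
  ∀ g ∈ permGroup σ, ∀ y : Y, ∃ y' : Y, g '' (fibre Z y) = fibre Z y'

/-- `β, α` are the coordinates of `σ`:
`σ_{(y,z)}(y', z') = (β_{y,z}(y'), α_{y,z,y'}(z'))`. -/
def IsBlockData {Y Z : Type} (σ : Y × Z → Equiv.Perm (Y × Z)) (β : Y → Z → Equiv.Perm Y)
    (α : Y → Z → Y → Equiv.Perm Z) : Prop :=
  ∀ y z y' z', σ (y, z) (y', z') = (β y z y', α y z y' z')

/-- The relabelling `(y, z) ↦ (π(y), τ_y(z))` of `Y × Z`. -/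
def label {Y Z : Type} (π : Equiv.Perm Y) (τ : Y → Equiv.Perm Z) : Equiv.Perm (Y × Z) where
  toFun x := (π x.1, τ x.1 x.2)
  invFun x := (π⁻¹ x.1, (τ (π⁻¹ x.1))⁻¹ x.2)
  left_inv x := by simp
  right_inv x := by simp

/-- The solution transported along a permutation `θ` of `X`: `σ'_{θ(x)} = θ σ_x θ⁻¹`. -/
def transport {X : Type} (θ : Equiv.Perm X) (σ : X → Equiv.Perm X) : X → Equiv.Perm X :=
  fun x => θ * σ (θ⁻¹ x) * θ⁻¹

end Pool.Agent.H46.YBE
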